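import Pool.Agent.H82.HD.TR

/-!
# CFN: the numerical contradiction
-/

set_option autoImplicit false

namespace Pool.Agent.H51.HDS

open Pool.Agent.H82.HD

/-- the inequalities for the exponents -/
theorem core (C m im s lam l4 tau mu be nu Qv q al c : ℝ) (hC : 0 ≤ C)
    (hs : s * (200 * (C + 1)) = 1) (hm : 1000 * (C + 1) ≤ m) (him : im * m = 1)
    (hc : c = 8 / 3 - s) (hl0 : 0 < l4) (hl : l4 ≤ lam)
    (hL : lam * ((C + 1) * (m + 2)) ≤ 1 / 10 ^ 6) (_hmu : 0 ≤ mu) (hbe : 0 ≤ be)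
    (h1 : q + mu ≤ l4 + tau + nu) (h2 : Qv ≤ lam + q) (h3 : mu + nu ≤ lam + Qv)
    (h4 : q + mu ≤ lam + 1 / 2 + tau) (h5 : mu ≤ tau)
    (h6 : tau + be + (m + 2) / 2 ≤ lam + (2 * al + (m + 2))) (h7 : - al ≤ lam)
    (h8 : nu ≤ lam + 1 / 2)
    (h10 : c / 2 - 1 < (nu - 1 / 2) * (1 - c / 4) + (mu - 2 * al) * (c * im / 2)) :
    nu - lam - 1 / 2 ≤ 0 ∧ 1 / 10 ≤ 6 * (nu - lam - 1 / 2) + 1 / 2 ∧
    C * (max 0 (2 * max 0 (Qv - 1 / 2) - tau) + 4 * (m + 2) * (lam - 7 * (nu - lam - 1 / 2))) +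
      max 0 (Qv - 1 / 2) + lam + 2 < tau + be - 2 * al := by
  have lam0 : 0 < lam := lt_of_lt_of_le hl0 hl
  have hm1 : 1000 ≤ m := by linarith
  have hm0 : 0 < m := by linarith
  have hs0 : 0 < s := by
    by_contra h
    push Not at h
    have : s * (200 * (C + 1)) ≤ 0 := mul_nonpos_of_nonpos_of_nonneg h (by linarith)
    linarith
  have hCs0 : 0 ≤ C * s := mul_nonneg hC hs0.le
  have hCs : C * s ≤ 1 / 200 := by
    have : C * s + s = 1 / 200 := by linarith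
    linarith
  have hs1 : s ≤ 1 / 200 := by
    have : C * s + s = 1 / 200 := by linarith
    linarith
  have him0 : 0 < im := by
    by_contra h
    push Not at h
    have : im * m ≤ 0 := mul_nonpos_of_nonpos_of_nonneg h hm0.le
    linarith
  have him1 : im ≤ 1 / 1000 := by
    have : im * 1000 ≤ im * m := mul_le_mul_of_nonneg_left hm1 him0.le
    linarith
  have hCim0 : 0 ≤ C * im := mul_nonneg hC him0.le
  have hCim : C * im ≤ 1 / 1000 := by
    have : im * (1000 * C) ≤ im * m := mul_le_mul_of_nonneg_left (by linarith) him0.le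
    linarith
  -- products with lam
  have p1 : 0 ≤ C * lam := mul_nonneg hC lam0.le
  have p2 : 0 ≤ m * lam := mul_nonneg hm0.le lam0.le
  have p3 : 0 ≤ C * (m * lam) := mul_nonneg hC p2
  have p4 : lam * ((C + 1) * (m + 2)) = C * (m * lam) + m * lam + 2 * (C * lam) + 2 * lam := by ring
  rw [p4] at hL
  have l1 : lam ≤ 1 / 10 ^ 6 := by linarith
  have l2 : m * lam ≤ 1 / 10 ^ 6 := by linarith
  have l3 : C * lam ≤ 1 / 10 ^ 6 := by linarith
  have l5 : C * (m * lam) ≤ 1 / 10 ^ 6 := by linarith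
  have p5 : 0 ≤ im * lam := mul_nonneg him0.le lam0.le
  have p6 : im * lam ≤ lam := by
    have : im * lam ≤ 1 * lam := mul_le_mul_of_nonneg_right (by linarith) lam0.le
    linarith
  have p7 : C * (im * lam) ≤ C * lam := mul_le_mul_of_nonneg_left p6 hC
  have p8 : 0 ≤ C * (im * lam) := mul_nonneg hC p5
  have hc2 : 2 ≤ c := by rw [hc]; linarith
  have hc3 : c ≤ 8 / 3 := by rw [hc]; linarith
  have hA0 : 2 * mu ≤ tau + 3 * lam := by linarith
  obtain ⟨D, hD⟩ : ∃ D, D = mu - 2 * al := ⟨_, rfl⟩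
  obtain ⟨N, hN⟩ : ∃ N, N = nu - 1 / 2 := ⟨_, rfl⟩
  rw [← hD, ← hN] at h10
  have hNl : N ≤ lam := by rw [hN]; linarith
  -- step A
  have k1 : N * (1 - c / 4) ≤ lam := by
    have e1 : N * (1 - c / 4) ≤ lam * (1 - c / 4) :=
      mul_le_mul_of_nonneg_right hNl (by linarith)
    have e2 : lam * (1 - c / 4) ≤ lam * 1 := mul_le_mul_of_nonneg_left (by linarith) lam0.le
    linarith
  have k2 : c / 2 - 1 - lam < D * (c * im / 2) := by linarith
  have k3 : (c / 2 - 1 - lam) * (2 * m) < D * c := by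
    have e1 : (c / 2 - 1 - lam) * (2 * m) < D * (c * im / 2) * (2 * m) :=
      mul_lt_mul_of_pos_right k2 (by linarith)
    have e2 : D * (c * im / 2) * (2 * m) = D * c * (im * m) := by ring
    rw [e2, him, mul_one] at e1
    exact e1
  have k4 : 2 + 2 * lam ≤ c * (3 / 4 + 3 / 10 * s + lam) := by
    have e1 : 2 ≤ c * (3 / 4 + 3 / 10 * s) := by
      have e0 : c * (3 / 4 + 3 / 10 * s) = 2 + s * (1 / 20 - 3 / 10 * s) := by
        rw [hc]
        ring
      rw [e0]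
      have : 0 ≤ s * (1 / 20 - 3 / 10 * s) := mul_nonneg hs0.le (by linarith)
      linarith
    have e2 : 2 * lam ≤ c * lam := mul_le_mul_of_nonneg_right hc2 lam0.le
    have e3 : c * (3 / 4 + 3 / 10 * s + lam) = c * (3 / 4 + 3 / 10 * s) + c * lam := by ring
    linarith
  have hA : m / 4 - 3 / 10 * (s * m) - m * lam < D := by
    by_contra h
    push Not at h
    have e1 : D * c ≤ (m / 4 - 3 / 10 * (s * m) - m * lam) * c :=
      mul_le_mul_of_nonneg_right h (by linarith)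
    have e2 : m * (2 + 2 * lam) ≤ m * (c * (3 / 4 + 3 / 10 * s + lam)) :=
      mul_le_mul_of_nonneg_left k4 hm0.le
    have e3 : (m / 4 - 3 / 10 * (s * m) - m * lam) * c =
        m * c - m * (c * (3 / 4 + 3 / 10 * s + lam)) := by ring
    have e4 : (c / 2 - 1 - lam) * (2 * m) = m * c - m * (2 + 2 * lam) := by ring
    linarith
  -- step B
  have hB : D ≤ m / 4 + 1 / 2 + 3 * lam := by
    rw [hD]
    linarith
  -- step C
  have hX : -(9 / 8 * s + 2 * im + 12 * (im * lam)) < N := by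
    have e1 : D * (c * im / 2) ≤ (m / 4 + 1 / 2 + 3 * lam) * (c * im / 2) :=
      mul_le_mul_of_nonneg_right hB (by positivity)
    have e2 : (m / 4 + 1 / 2 + 3 * lam) * (c * im / 2) =
        c / 8 * (im * m) + c * (im / 4) + c * (3 / 2 * (im * lam)) := by ring
    rw [him] at e2
    have e3 : c * (im / 4) ≤ 8 / 3 * (im / 4) := mul_le_mul_of_nonneg_right hc3 (by linarith)
    have e4 : c * (3 / 2 * (im * lam)) ≤ 8 / 3 * (3 / 2 * (im * lam)) :=
      mul_le_mul_of_nonneg_right hc3 (by linarith)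
    have e5 : -(3 / 8 * s + 2 / 3 * im + 4 * (im * lam)) < N * (1 - c / 4) := by
      have : c / 2 - 1 - c / 8 = - (3 / 8 * s) := by rw [hc]; ring
      linarith
    by_contra h
    push Not at h
    have e6 : N ≤ 0 := by linarith
    have e7 : N * (1 - c / 4) ≤ N * (1 / 3) := by
      apply mul_le_mul_of_nonpos_left _ e6
      rw [hc]
      linarith
    linarith
  have hom : nu - lam - 1 / 2 = N - lam := by rw [hN]; ring
  rw [hom]
  refine ⟨by linarith, by linarith, ?_⟩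
  -- step D
  obtain ⟨th, hth⟩ : ∃ x, x = max 0 (Qv - 1 / 2) := ⟨_, rfl⟩
  rw [← hth]
  have hth1 : th ≤ 2 * lam + tau - mu := by
    rw [hth]
    apply max_le <;> linarith
  obtain ⟨k, hk⟩ : ∃ x, x = max 0 (2 * th - tau) := ⟨_, rfl⟩
  rw [← hk]
  have hsm : 0 ≤ s * m := mul_nonneg hs0.le hm0.le
  have hk1 : k ≤ 1 + 6 / 10 * (s * m) + 7 * lam + 2 * (m * lam) := by
    rw [hk]
    apply max_le
    · linarith
    · rw [hD] at hA
      linarith
  -- step E
  have hE1 : 4 * (m + 2) * (lam - 7 * (N - lam)) ≤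
      4 * (m + 2) * (8 * lam + 63 / 8 * s + 14 * im + 84 * (im * lam)) := by
    apply mul_le_mul_of_nonneg_left _ (by linarith)
    linarith
  have hE2 : 4 * (m + 2) * (8 * lam + 63 / 8 * s + 14 * im + 84 * (im * lam)) =
      32 * (m * lam) + 64 * lam + 63 / 2 * (s * m) + 63 * s + 56 * (im * m) + 112 * im +
      336 * (im * m) * lam + 672 * (im * lam) := by ring
  rw [him] at hE2
  have hE3 : C * (k + 4 * (m + 2) * (lam - 7 * (N - lam))) ≤
      C * (1 + 6 / 10 * (s * m) + 7 * lam + 2 * (m * lam) +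
        (32 * (m * lam) + 64 * lam + 63 / 2 * (s * m) + 63 * s + 56 * 1 + 112 * im +
      336 * 1 * lam + 672 * (im * lam))) := by
    apply mul_le_mul_of_nonneg_left _ hC
    linarith
  have hE4 : C * (1 + 6 / 10 * (s * m) + 7 * lam + 2 * (m * lam) +
        (32 * (m * lam) + 64 * lam + 63 / 2 * (s * m) + 63 * s + 56 * 1 + 112 * im +
      336 * 1 * lam + 672 * (im * lam))) =
      57 * C + 321 / 10 * (C * s * m) + 407 * (C * lam) + 34 * (C * (m * lam)) + 63 * (C * s) +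
      112 * (C * im) + 672 * (C * (im * lam)) := by ring
  have hE5 : C * s * m ≤ 1 / 200 * m := mul_le_mul_of_nonneg_right hCs hm0.le
  have hE6 : s * m ≤ 1 / 200 * m := mul_le_mul_of_nonneg_right hs1 hm0.le
  rw [hD] at hA
  linarith

theorem pf_CFN : T_CFN := by
  intro C₀
  obtain ⟨C, hCd⟩ : ∃ C : ℝ, C = C₀ := ⟨_, rfl⟩
  have hC : 0 ≤ C := by rw [hCd]; exact Nat.cast_nonneg _
  have hC1 : (0 : ℝ) < 200 * (C + 1) := by linarith
  refine ⟨1 / (200 * (C + 1)), 1000 * (C₀ + 1), by positivity, ?_, by omega, ?_⟩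
  · rw [div_lt_div_iff₀ hC1 (by norm_num)]
    linarith
  intro m hm
  obtain ⟨mr, hmr⟩ : ∃ x : ℝ, x = m := ⟨_, rfl⟩
  have hm' : 1000 * (C + 1) ≤ mr := by
    rw [hmr, hCd]
    exact_mod_cast hm
  have hm0 : 0 < mr := by linarith
  refine ⟨1 / (10 ^ 6 * ((C + 1) * (mr + 2))), by positivity, ?_⟩
  intro C₁
  refine ⟨2 + (max 1 C₁) ^ 10, by
    have : (0 : ℝ) ≤ (max 1 C₁) ^ 10 := by positivity
    linarith, ?_⟩
  intro R Λ t M b n Q q₄ a A x hR h4Λ hΛR ht hM hb hn hQ hq₄ ha hA hx H1 H2 H3 H4 H5 H6 H7 H8 H10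
  have hP : (0 : ℝ) ≤ (max 1 C₁) ^ 10 := by positivity
  have hR1 : 1 < R := by linarith
  have hR0 : 0 < R := by linarith
  have hRC : C₁ ≤ R ^ (1 / 10 : ℝ) := by
    have e1 : ((max 1 C₁) ^ 10) ^ (1 / 10 : ℝ) ≤ R ^ (1 / 10 : ℝ) :=
      Real.rpow_le_rpow hP (by linarith) (by norm_num)
    have e2 : ((max 1 C₁) ^ 10 : ℝ) ^ (1 / 10 : ℝ) = max 1 C₁ := by
      rw [← Real.rpow_natCast, ← Real.rpow_mul (by positivity)]
      norm_num
    rw [e2] at e1
    exact (le_max_right _ _).trans e1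
  have hex : ∀ X : ℝ, 0 < X → ∃ ξ : ℝ, X = R ^ ξ := fun X hX =>
    ⟨Real.logb R X, (Real.rpow_logb hR0 (ne_of_gt hR1) hX).symm⟩
  have hle : ∀ y z : ℝ, R ^ y ≤ R ^ z ↔ y ≤ z := fun y z => Real.rpow_le_rpow_left_iff hR1
  have hlt : ∀ y z : ℝ, R ^ y < R ^ z ↔ y < z := fun y z => Real.rpow_lt_rpow_left_iff hR1
  have had : ∀ y z : ℝ, R ^ y * R ^ z = R ^ (y + z) := fun y z => (Real.rpow_add hR0 y z).symm
  have hsu : ∀ y z : ℝ, R ^ y / R ^ z = R ^ (y - z) := fun y z => (Real.rpow_sub hR0 y z).symm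
  have hmu : ∀ y z : ℝ, (R ^ y) ^ z = R ^ (y * z) := fun y z => (Real.rpow_mul hR0.le y z).symm
  have hpo : ∀ (y : ℝ) (k : ℕ), (R ^ y) ^ k = R ^ (y * k) := fun y k => by
    rw [← Real.rpow_natCast, hmu]
  have hsq : Real.sqrt R = R ^ (1 / 2 : ℝ) := Real.sqrt_eq_rpow R
  have hone : (1 : ℝ) = R ^ (0 : ℝ) := (Real.rpow_zero R).symm
  obtain ⟨l4, e4⟩ := hex 4 (by norm_num)
  obtain ⟨lam, eΛ⟩ := hex Λ (by linarith)
  obtain ⟨tau, et⟩ := hex t ht
  obtain ⟨mu, eM⟩ := hex M (by linarith)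
  obtain ⟨be, eb⟩ := hex b (by linarith)
  obtain ⟨nu, en⟩ := hex n hn
  obtain ⟨Qv, eQ⟩ := hex Q hQ
  obtain ⟨q, eq⟩ := hex q₄ hq₄
  obtain ⟨α, ea⟩ := hex a ha
  obtain ⟨β, eA⟩ := hex A hA
  have g0 : 0 < l4 := by
    have : R ^ (0 : ℝ) < R ^ l4 := by
      rw [← e4, Real.rpow_zero]
      norm_num
    exact (hlt _ _).1 this
  have g1 : l4 ≤ lam := by
    rw [e4, eΛ] at h4Λ
    exact (hle _ _).1 h4Λ
  have g2 : lam ≤ 1 / (10 ^ 6 * ((C + 1) * (mr + 2))) := by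
    rw [eΛ] at hΛR
    exact (hle _ _).1 hΛR
  have g3 : 0 ≤ mu := by
    rw [hone, eM] at hM
    exact (hle _ _).1 hM
  have g4 : 0 ≤ be := by
    rw [hone, eb] at hb
    exact (hle _ _).1 hb
  rw [e4, eq, eM, et, en, had, had, had, hle] at H1
  rw [eQ, eΛ, eq, had, hle] at H2
  rw [eM, en, eΛ, eQ, had, had, hle] at H3
  rw [eq, eM, eΛ, hsq, et, had, had, had, hle] at H4
  rw [eM, et, hle] at H5
  rw [et, eb, ea, eΛ, eA, hpo, hpo, had, had, had, had, had, hle] at H6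
  rw [ea, eΛ, eA, had, hle] at H7
  rw [en, eΛ, hsq, had, hle] at H8
  have hmx : (m : ℝ) * x = 8 / 3 - 1 / (200 * (C + 1)) := by
    rw [hx, ← hmr]
    field_simp
  obtain ⟨im, him⟩ : ∃ y : ℝ, y = 1 / mr := ⟨_, rfl⟩
  have himm : im * mr = 1 := by
    rw [him]
    field_simp
  have hx2 : x / 2 = (8 / 3 - 1 / (200 * (C + 1))) * im / 2 := by
    rw [hx, him, ← hmr]
    ring
  rw [en, eM, ea, eA, hsq, hpo, hpo, had, hsu, hsu, hmu, hmu, had, hlt, hmx, hx2] at H10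
  push_cast at H6 H10
  rw [← hmr] at H6
  have hL : lam * ((C + 1) * (mr + 2)) ≤ 1 / 10 ^ 6 := by
    have e1 : (0 : ℝ) < (C + 1) * (mr + 2) := by positivity
    have e2 := mul_le_mul_of_nonneg_right g2 e1.le
    have e3 : 1 / (10 ^ 6 * ((C + 1) * (mr + 2))) * ((C + 1) * (mr + 2)) = 1 / 10 ^ 6 := by
      field_simp
    rw [e3] at e2
    exact e2
  obtain ⟨r1, r2, r3⟩ := core C mr im (1 / (200 * (C + 1))) lam l4 tau mu be nu Qv q (β - α)
    (8 / 3 - 1 / (200 * (C + 1))) hC (by field_simp) hm' himm rfl g0 g1 hL g3 g4 H1 H2 H3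
    (by linarith) H5 (by linarith) (by linarith) H8 (by
      have e1 : mu + α * 2 - β * 2 = mu - 2 * (β - α) := by ring
      rw [e1] at H10
      linarith)
  obtain ⟨th, hth⟩ : ∃ y : ℝ, y = max 0 (Qv - 1 / 2) := ⟨_, rfl⟩
  obtain ⟨k, hk⟩ : ∃ y : ℝ, y = max 0 (2 * th - tau) := ⟨_, rfl⟩
  rw [← hth, ← hk] at r3
  have hth0 : 0 ≤ th := by rw [hth]; exact le_max_left _ _
  have hth1 : Qv - 1 / 2 ≤ th := by rw [hth]; exact le_max_right _ _
  have hk0 : 0 ≤ k := by rw [hk]; exact le_max_left _ _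
  have hk1 : 2 * th - tau ≤ k := by rw [hk]; exact le_max_right _ _
  have eom : n / (Λ * Real.sqrt R) = R ^ (nu - lam - 1 / 2) := by
    rw [en, eΛ, hsq, had, hsu]
    congr 1
    ring
  rw [eom]
  refine ⟨?_, ?_, R ^ k, R ^ th, ?_, ?_, ?_, ?_, ?_⟩
  · rw [hpo, hsq, had]
    refine hRC.trans ((hle _ _).2 ?_)
    push_cast
    linarith
  · exact Real.rpow_le_one_of_one_le_of_nonpos hR1.le r1
  · exact Real.one_le_rpow hR1.le hk0
  · exact Real.one_le_rpow hR1.le hth0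
  · rw [eQ, hsq, had, hle]
    linarith
  · rw [hpo, et, had, hle]
    push_cast
    linarith
  · have eR2 : R ^ 2 = R ^ (2 : ℝ) := by
      rw [← Real.rpow_natCast]
      norm_num
    rw [eΛ, eA, eR2, et, eb, ea]
    simp only [hpo, hsu, had]
    rw [hlt]
    push_cast
    rw [← hmr, ← hCd]
    linarith

end Pool.Agent.H51.HDS
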